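import Pool.Agent.R325.DPMain

namespace Pool.Agent.Results.MP_bde484_co.BoundFails

open Pool.Agent.R325.DP

/-- Full (negative) answer to Q1.  The bound `γ_d^p(T) ≤ (n - 2√n + d + 1)/d` fails for suitable
trees for all `6 ≤ p ≤ d`; even its leading term is wrong: for all `s, t ≥ 1` there is a tree with
`n = 1 + 2s + s t (d-1)` vertices and `γ_d^p ≥ (s-1) t`.  (For `p ≤ d` the minimum defining
`γ_d^p` is over a nonempty set in every finite graph.) -/
theorem result :
    (¬ ∀ p d : ℕ, 3 ≤ p → p ≤ d → ∀ (V : Type) [Fintype V] (G : SimpleGraph V), G.IsTree →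
      (gamma G d p : ℝ) ≤
        ((Fintype.card V : ℝ) - 2 * Real.sqrt (Fintype.card V) + d + 1) / d) ∧
    (∀ p d : ℕ, 6 ≤ p → p ≤ d → ∃ (V : Type) (_ : Fintype V) (G : SimpleGraph V), G.IsTree ∧
      ((Fintype.card V : ℝ) - 2 * Real.sqrt (Fintype.card V) + d + 1) / d < gamma G d p) ∧
    (∀ p d s t : ℕ, 6 ≤ p → p ≤ d → 1 ≤ s → 1 ≤ t →
      ∃ (V : Type) (_ : Fintype V) (G : SimpleGraph V), G.IsTree ∧
        Fintype.card V = 1 + 2 * s + s * t * (d - 1) ∧ (s - 1) * t ≤ gamma G d p) ∧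
    (∀ (V : Type) [Fintype V] (G : SimpleGraph V) (p d : ℕ), p ≤ d →
      ∃ X : Finset V, IsDom G d X ∧ IsPacking G p X ∧ X.card = gamma G d p) := by
  refine ⟨?_, ?_, ?_, ?_⟩
  · intro h
    have h1 := counterexample (d := 6) (p := 6) le_rfl le_rfl
    exact absurd (h 6 6 (by norm_num) le_rfl _ _ h1.1) (not_le.mpr h1.2)
  · intro p d hp hpd
    exact ⟨_, inferInstance, _, counterexample hp hpd⟩
  · intro p d s t hp hpd hs _
    refine ⟨Vx s t (d - 1), inferInstance, T s t (d - 1), isTree_parGraph dep_par, ?_,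
      gamma_lower hp hpd hs⟩
    rw [card_Vx]
    ring
  · intro V _ G p d hpd
    have hne : {k | ∃ X : Finset V, IsDom G d X ∧ IsPacking G p X ∧ X.card = k}.Nonempty := by
      obtain ⟨X, h1, h2⟩ := exists_dom_packing G hpd
      exact ⟨_, X, h1, h2, rfl⟩
    exact Nat.sInf_mem hne

end Pool.Agent.Results.MP_bde484_co.BoundFails
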